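import Pool.Agent.Q264.AC.Main

/-!
# MP_b1e97f_co: the Schrijver number of the strong square of the acute-angle hypercube graph

`ϑ'(G_n ⊠ G_n)` grows faster than every power of `n`: for every `C` it is larger than `n ^ C` for all large `n`. This is
the negated form of Q1 (for all large `n`). Here `Cube n` is the cube, `dot` the inner product of sign vectors.
-/

namespace Pool.Agent.Results.MP_b1e97f_co.Superpolynomial

open Pool.Agent.Q264.SN Pool.Agent.Q264.AC

theorem result (C : ℝ) : ∃ n₀ : ℕ, ∀ n : ℕ, n₀ ≤ n → (n : ℝ) ^ C < schrijver (strongSq (acute n)) :=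
  Filter.eventually_atTop.1 (main C)

end Pool.Agent.Results.MP_b1e97f_co.Superpolynomial
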